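import Mathlib
import Pool.Agent.Helper17.R8.Sheet

/-! # Row REL of the rank eight sheet -/

set_option autoImplicit false

namespace Pool.Helper66.R8REL

open Pool.Helper17.R8

section
variable {R S : Type*} [CommRing R] [CommRing S] (φ : R →+* S)

theorem map_ek (s : Fin 8 → R) (k : ℕ) : φ (ek s k) = ek (fun i => φ (s i)) k := by
  simp [ek, map_sum, map_prod]

theorem map_fI (e : ℕ → R) (t : R) : φ (fI e t) = fI (fun k => φ (e k)) (φ t) := by
  simp only [fI, q4, q3, q2, q1, q0, map_add, map_sub, map_mul, map_pow, map_ofNat]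

theorem map_fJ (e : ℕ → R) (t : R) : φ (fJ e t) = fJ (fun k => φ (e k)) (φ t) := by
  simp only [fJ, q4, q3, q2, q1, q0, map_add, map_sub, map_mul, map_pow, map_ofNat]

theorem map_ss (u : Fin 6 → R) : (fun i => φ (ss u i)) = ss (fun i => φ (u i)) := by
  funext i
  fin_cases i <;> simp [ss]

theorem map_ekss (u : Fin 6 → R) :
    (fun k => φ (ek (ss u) k)) = ek (ss (fun i => φ (u i))) := by
  funext k
  rw [map_ek, map_ss]

end

theorem cong_I (n : ℕ) (u v : Fin 6 → ℤ) (t τ : ℤ) (h : ∀ i, (n : ℤ) ∣ u i - v i)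
    (ht : (n : ℤ) ∣ t - τ) : (n : ℤ) ∣ fI (ek (ss u)) t - fI (ek (ss v)) τ := by
  have hu : (fun i => (Int.castRingHom (ZMod n)) (u i)) =
      (fun i => (Int.castRingHom (ZMod n)) (v i)) := by
    funext i
    have := (ZMod.intCast_zmod_eq_zero_iff_dvd (u i - v i) n).2 (h i)
    simpa [sub_eq_zero] using this
  have ht' : (Int.castRingHom (ZMod n)) t = (Int.castRingHom (ZMod n)) τ := by
    have := (ZMod.intCast_zmod_eq_zero_iff_dvd (t - τ) n).2 ht
    simpa [sub_eq_zero] using this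
  have key : (Int.castRingHom (ZMod n)) (fI (ek (ss u)) t - fI (ek (ss v)) τ) = 0 := by
    rw [map_sub, map_fI, map_fI, map_ekss, map_ekss, hu, ht', sub_self]
  exact (ZMod.intCast_zmod_eq_zero_iff_dvd _ n).1 (by simpa using key)

theorem cong_J (n : ℕ) (u v : Fin 6 → ℤ) (t τ : ℤ) (h : ∀ i, (n : ℤ) ∣ u i - v i)
    (ht : (n : ℤ) ∣ t - τ) : (n : ℤ) ∣ fJ (ek (ss u)) t - fJ (ek (ss v)) τ := by
  have hu : (fun i => (Int.castRingHom (ZMod n)) (u i)) =
      (fun i => (Int.castRingHom (ZMod n)) (v i)) := by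
    funext i
    have := (ZMod.intCast_zmod_eq_zero_iff_dvd (u i - v i) n).2 (h i)
    simpa [sub_eq_zero] using this
  have ht' : (Int.castRingHom (ZMod n)) t = (Int.castRingHom (ZMod n)) τ := by
    have := (ZMod.intCast_zmod_eq_zero_iff_dvd (t - τ) n).2 ht
    simpa [sub_eq_zero] using this
  have key : (Int.castRingHom (ZMod n)) (fJ (ek (ss u)) t - fJ (ek (ss v)) τ) = 0 := by
    rw [map_sub, map_fJ, map_fJ, map_ekss, map_ekss, hu, ht', sub_self]
  exact (ZMod.intCast_zmod_eq_zero_iff_dvd _ n).1 (by simpa using key)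

theorem e2 : ek (ss ub) 2 = -444 := by decide +kernel
theorem e3 : ek (ss ub) 3 = -160 := by decide +kernel
theorem e4 : ek (ss ub) 4 = 53454 := by decide +kernel
theorem e5 : ek (ss ub) 5 = -16320 := by decide +kernel
theorem e6 : ek (ss ub) 6 = -1588076 := by decide +kernel
theorem e7 : ek (ss ub) 7 = 2310240 := by decide +kernel
theorem e8 : ek (ss ub) 8 = 3828825 := by decide +kernel

theorem baseI : fI (ek (ss ub)) 3 = 48 * 459878073574319139 := by
  simp only [fI, q4, q3, q2, q1, q0, e2, e3, e4, e5, e6, e7, e8]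
  norm_num

theorem baseJ : fJ (ek (ss ub)) 3 = -(1728 * 162579259487614027045167326) := by
  simp only [fJ, q4, q3, q2, q1, q0, e2, e3, e4, e5, e6, e7, e8]
  norm_num

theorem st_REL : ST_REL := by
  intro w hw
  have hM : MM = ((1728 * Nat.factorial QQ : ℕ) : ℤ) := by
    rw [MM]; push_cast; rfl
  have h1 : MM ∣ fI (ek (ss w.1)) w.2 - fI (ek (ss ub)) 3 := by
    rw [hM]
    exact cong_I _ _ _ _ _ (fun i => hM ▸ hw.1 i) (hM ▸ hw.2)
  have h2 : MM ∣ fJ (ek (ss w.1)) w.2 - fJ (ek (ss ub)) 3 := by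
    rw [hM]
    exact cong_J _ _ _ _ _ (fun i => hM ▸ hw.1 i) (hM ▸ hw.2)
  rw [baseI] at h1
  rw [baseJ] at h2
  obtain ⟨a, ha⟩ := h1
  obtain ⟨b, hb⟩ := h2
  rw [MM] at ha hb
  generalize hF : ((QQ.factorial : ℕ) : ℤ) = F at ha hb ⊢
  have hA : cA w = -459878073574319139 - 36 * F * a := by
    have : -(fI (ek (ss w.1)) w.2) = 48 * (-459878073574319139 - 36 * F * a) := by
      linear_combination -ha
    rw [cA, this]
    exact Int.mul_ediv_cancel_left _ (by norm_num)
  have hB : cB w = 162579259487614027045167326 - F * b := by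
    have : -(fJ (ek (ss w.1)) w.2) = 1728 * (162579259487614027045167326 - F * b) := by
      linear_combination -hb
    rw [cB, this]
    exact Int.mul_ediv_cancel_left _ (by norm_num)
  refine ⟨?_, ?_, ?_, ?_⟩
  · rw [hA]; linear_combination ha
  · rw [hB]; linear_combination hb
  · rw [hA]; exact ⟨-36 * a, by ring⟩
  · rw [hB]; exact ⟨-b, by ring⟩

end Pool.Helper66.R8REL
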